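import Pool.Agent.Helper56.OC.Fin3

/-!
# Quadrangular faces in arrangements of orthogonal circles
-/

set_option autoImplicit false

namespace Pool.Agent.Results.MP_020e9d_co.QuadFaces

open Pool.Agent.Helper56.OC

/-- Every arrangement of orthogonal circles has finitely many quadrangular faces, and the maximal
number of quadrangular faces of an arrangement of `n` orthogonal circles is `4 (n - 3)` for all
`n ≥ 4`, is `2` for `n = 3` and `0` for `n = 1, 2`. -/
theorem result :
    (∀ S : Finset Circ, IsArrangement S → (quadFaces S).Finite) ∧
    ∀ n : ℕ, 1 ≤ n →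
      IsGreatest {k : ℕ | ∃ S : Finset Circ, S.card = n ∧ IsArrangement S ∧
        (quadFaces S).ncard = k} (if n ≤ 2 then 0 else if n = 3 then 2 else 4 * (n - 3)) :=
  ⟨quad_finite, quad_greatest⟩

end Pool.Agent.Results.MP_020e9d_co.QuadFaces
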